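import Pool.Agent.W426.LE.SG
set_option autoImplicit false
set_option linter.all false

/-! Joined circulants: the signed number of colourings modulo the square of the prime. -/

namespace Pool.Agent.W82.LEBI

open Finset
open scoped Classical
open Pool.Agent.W426.LE

/-- the rotation of the edges as a permutation -/
def rotP {n : ℕ} {I T : Type} : Equiv.Perm (EE I T n) where
  toFun := rot
  invFun := fun e => match e with
    | .inl (b, i, y) => .inl (b, i, y - 1)
    | .inr (τ, y) => .inr (τ, y - 1)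
  left_inv := by
    intro e
    rcases e with ⟨b, i, y⟩ | ⟨τ, y⟩ <;> simp [rot]
  right_inv := by
    intro e
    rcases e with ⟨b, i, y⟩ | ⟨τ, y⟩ <;> simp [rot]

theorem rotP_apply {n : ℕ} {I T : Type} (e : EE I T n) : rotP e = rot e := rfl

theorem rotP_pow {n : ℕ} {I T : Type} (m : ℕ) (e : EE I T n) :
    ((rotP : Equiv.Perm (EE I T n)) ^ m) e = match e with
      | .inl (b, i, y) => .inl (b, i, y + (m : ZMod n))
      | .inr (τ, y) => .inr (τ, y + (m : ZMod n)) := by
  induction m with
  | zero => rcases e with ⟨b, i, y⟩ | ⟨τ, y⟩ <;> simp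
  | succ m ih =>
    rw [pow_succ', Equiv.Perm.mul_apply, ih]
    rcases e with ⟨b, i, y⟩ | ⟨τ, y⟩ <;> simp [rotP_apply, rot, add_assoc]

theorem rotP_pow_n {n : ℕ} {I T : Type} : (rotP : Equiv.Perm (EE I T n)) ^ n = 1 := by
  ext e
  rw [rotP_pow]
  rcases e with ⟨b, i, y⟩ | ⟨τ, y⟩ <;> simp

theorem rot_inc {n : ℕ} {I T : Type} (s : Bool → I → ZMod n) (v : T → ZMod n) (u : ZMod n × Bool)
    (i : DD I T) : rot (inc s v u i) = inc s v (u.1 + 1, u.2) i := by
  rcases u with ⟨y, b⟩
  rcases i with ⟨i, c⟩ | τ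
  · cases c
    · simp only [inc, rot]
      congr 3
      ring
    · simp only [inc, rot]
  · cases b
    · simp only [inc, rot]
    · simp only [inc, rot]
      congr 2
      ring

/-- the weight -/
noncomputable def ww {p n : ℕ} [NeZero n] {I T F : Type} [Fintype I] [Fintype T]
    (ρ : DD I T ≃ CC p F) (s : Bool → I → ZMod n) (v : T → ZMod n) (x : EE I T n → CC p F) : ℤ :=
  ∏ u : ZMod n × Bool, sg ρ (fun i => x (inc s v u i))

theorem ww_sh {p n : ℕ} [Fact p.Prime] [NeZero n] (hp : p ≠ 2) {I T F : Type} [Fintype I] [Fintype T]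
    [Fintype F]
    (ρ : DD I T ≃ CC p F) (s : Bool → I → ZMod n) (v : T → ZMod n) (x : EE I T n → CC p F) (j : ZMod p) :
    ww ρ s v (fun e => sh j (x e)) = ww ρ s v x := by
  unfold ww
  apply Finset.prod_congr rfl
  intro u _
  exact sg_sh hp ρ (fun i => x (inc s v u i)) j

theorem ww_rot {p n : ℕ} [NeZero n] {I T F : Type} [Fintype I] [Fintype T]
    (ρ : DD I T ≃ CC p F) (s : Bool → I → ZMod n) (v : T → ZMod n) (x : EE I T n → CC p F) :
    ww ρ s v (fun e => x (rot e)) = ww ρ s v x := by
  unfold ww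
  simp only [rot_inc]
  exact Fintype.prod_equiv ((Equiv.addRight (1 : ZMod n)).prodCongr (Equiv.refl Bool))
    (fun u => sg ρ (fun i => x (inc s v (u.1 + 1, u.2) i))) (fun u => sg ρ (fun i => x (inc s v u i)))
    (fun u => rfl)

theorem sum_sub {Y : Type} [Fintype Y] (w f : Y → ℤ) (hf : ∀ x, w x = 0 → f x = 0) :
    ∑ x : {x // w x ≠ 0}, f x = ∑ x, f x := by
  rw [← Fintype.sum_subtype_add_sum_subtype (fun x => w x ≠ 0) f]
  have : ∑ i : {x // ¬ w x ≠ 0}, f i = 0 := by
    apply Finset.sum_eq_zero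
    intro x _
    apply hf
    exact not_not.mp x.2
  rw [this, add_zero]

section
variable {p n : ℕ} [Fact p.Prime] [NeZero n] {I T F : Type} [Fintype I] [Fintype T] [Fintype F]
  (ρ : DD I T ≃ CC p F) (s : Bool → I → ZMod n) (v : T → ZMod n)

abbrev XX := {x : EE I T n → CC p F // ww ρ s v x ≠ 0}

/-- action of the shifts -/
@[reducible] noncomputable def act (hp : p ≠ 2) : MulAction (Multiplicative (ZMod p)) (XX ρ s v) where
  smul α x := ⟨fun e => sh (Multiplicative.toAdd α) (x.1 e), by rw [ww_sh hp]; exact x.2⟩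
  one_smul x := by
    apply Subtype.ext
    funext e
    show sh (Multiplicative.toAdd 1) (x.1 e) = x.1 e
    rw [toAdd_one, sh_zero]
  mul_smul α β x := by
    apply Subtype.ext
    funext e
    show sh (Multiplicative.toAdd (α * β)) (x.1 e) = sh (Multiplicative.toAdd α) (sh (Multiplicative.toAdd β) (x.1 e))
    rw [sh_add, toAdd_mul]

/-- rotation -/
def gg : Equiv.Perm (XX ρ s v) where
  toFun x := ⟨fun e => x.1 (rot e), by rw [ww_rot]; exact x.2⟩
  invFun x := ⟨fun e => x.1 (rotP.symm e), by
    have h := ww_rot ρ s v (fun e => x.1 (rotP.symm e))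
    have h2 : (fun e => x.1 (rotP.symm (rot e))) = x.1 := by
      funext e
      rw [← rotP_apply, Equiv.symm_apply_apply]
    rw [h2] at h
    rw [← h]; exact x.2⟩
  left_inv := by
    intro x
    apply Subtype.ext
    funext e
    show x.1 (rot (rotP.symm e)) = x.1 e
    rw [← rotP_apply, Equiv.apply_symm_apply]
  right_inv := by
    intro x
    apply Subtype.ext
    funext e
    show x.1 (rotP.symm (rot e)) = x.1 e
    rw [← rotP_apply, Equiv.symm_apply_apply]

theorem gg_pow (m : ℕ) (x : XX ρ s v) : (((gg ρ s v) ^ m) x).1 = fun e => x.1 ((rotP ^ m) e) := by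
  induction m generalizing x with
  | zero => rfl
  | succ m ih =>
    rw [pow_succ, Equiv.Perm.mul_apply, ih]
    funext e
    rw [pow_succ', Equiv.Perm.mul_apply]
    rfl

theorem key (hK : S_KEY) (hp : p ≠ 2) (k : ℕ) (hn : n = p ^ k) :
    (p : ℤ) ^ 2 ∣ NN ρ (inc s v) - ∑ j : ZMod p, ZZ ρ s v j := by
  letI := act ρ s v hp
  have h := hK (XX ρ s v) (Multiplicative (ZMod p)) p 1 Fact.out (by simp [ZMod.card]) ?_
    (gg ρ s v) ?_ ⟨k, ?_⟩ (fun x => ww ρ s v x.1) ?_ ?_
  · have h1 : ∑ x : XX ρ s v, ww ρ s v x.1 = NN ρ (inc s v) := by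
      have := sum_sub (ww ρ s v) (ww ρ s v) (fun x hx => hx)
      rw [this]
      unfold NN ww
      first
      | rfl
      | exact Finset.sum_congr (by ext; simp) (fun _ _ => rfl)
    have h2 : ∑ α : Multiplicative (ZMod p), ∑ x ∈ univ.filter (fun x : XX ρ s v => gg ρ s v x = α • x), ww ρ s v x.1
        = ∑ j : ZMod p, ZZ ρ s v j := by
      apply Fintype.sum_equiv (Multiplicative.toAdd)
      intro α
      have h3 := sum_sub (ww ρ s v) (fun x => if (∀ e, x (rot e) = sh (Multiplicative.toAdd α) (x e)) then ww ρ s v x else 0)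
        (fun x hx => by simp only [hx, ite_self])
      unfold ZZ
      rw [Finset.sum_filter, Finset.sum_filter]
      refine Eq.trans ?_ h3
      apply Finset.sum_congr rfl
      intro x _
      have h4 : (gg ρ s v x = α • x) ↔ (∀ e, x.1 (rot e) = sh (Multiplicative.toAdd α) (x.1 e)) := by
        constructor
        · intro h5 e
          have := congrArg Subtype.val h5
          exact congrFun this e
        · intro h5
          apply Subtype.ext
          funext e
          exact h5 e
      simp only [h4]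
    rw [← h1, ← h2]
    have e3 : ∀ (f1 f2 : Fintype (XX ρ s v)), @Finset.sum (XX ρ s v) ℤ _ (@Finset.univ _ f1) (fun x => ww ρ s v x.1)
        = @Finset.sum (XX ρ s v) ℤ _ (@Finset.univ _ f2) (fun x => ww ρ s v x.1) := by
      intro f1 f2
      have h1 : f1 = f2 := Subsingleton.elim _ _
      subst h1
      rfl
    have e4 : ∀ (f1 f2 : Fintype (XX ρ s v)) (f3 f4 : Fintype (Multiplicative (ZMod p)))
        (d1 d2 : ∀ α : Multiplicative (ZMod p), DecidablePred (fun x : XX ρ s v => gg ρ s v x = α • x)),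
        (@Finset.sum (Multiplicative (ZMod p)) ℤ _ (@Finset.univ _ f3) (fun α => ∑ x ∈ @Finset.filter _ (fun x : XX ρ s v => gg ρ s v x = α • x) (d1 α) (@Finset.univ _ f1), ww ρ s v x.1))
        = @Finset.sum (Multiplicative (ZMod p)) ℤ _ (@Finset.univ _ f4) (fun α => ∑ x ∈ @Finset.filter _ (fun x : XX ρ s v => gg ρ s v x = α • x) (d2 α) (@Finset.univ _ f2), ww ρ s v x.1) := by
      intro f1 f2 f3 f4 d1 d2
      have h1 : f1 = f2 := Subsingleton.elim _ _
      have h2 : d1 = d2 := Subsingleton.elim _ _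
      have h3 : f3 = f4 := Subsingleton.elim _ _
      subst h1
      subst h2
      subst h3
      rfl
    have e5 : ∀ A B A' B' : ℤ, A = A' → B = B' → (p : ℤ) ^ 2 ∣ A - B → (p : ℤ) ^ 2 ∣ A' - B' := by
      intro A B A' B' h1 h2 h3
      rw [← h1, ← h2]
      exact h3
    exact e5 _ _ _ _ (e3 _ _) (e4 _ _ _ _ _ _) h
  · intro α x hx
    have h0 := x.2
    have h1 : sg ρ (fun i => x.1 (inc s v (0, false) i)) ≠ 0 := by
      intro h2
      apply h0
      unfold ww
      exact Finset.prod_eq_zero (Finset.mem_univ (0, false)) h2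
    rw [sg_ne_zero_iff] at h1
    obtain ⟨i, hi⟩ := h1.2 (Sum.inl 0)
    have h2 := congrFun (congrArg Subtype.val hx) (inc s v (0, false) i)
    have h3 : sh (Multiplicative.toAdd α) (x.1 (inc s v (0, false) i)) = x.1 (inc s v (0, false) i) := h2
    simp only at hi
    rw [hi] at h3
    simp only [sh, zero_add, Sum.inl.injEq] at h3
    apply Multiplicative.toAdd.injective
    rw [h3, toAdd_one]
  · intro α x
    apply Subtype.ext
    funext e
    rfl
  · apply Equiv.ext
    intro x
    apply Subtype.ext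
    rw [← hn, gg_pow, rotP_pow_n]
    rfl
  · intro α x
    exact ww_sh hp ρ s v x.1 (Multiplicative.toAdd α)
  · intro x
    exact ww_rot ρ s v x.1

end

theorem main (hK : S_KEY) (hA : S_YA) (hB : S_YB) (hT : S_TW) (hT0 : S_TW0) : S_BI := by
  intro p k _ hp hk I T F _ _ _ ρ ρ' s v hs htp hNN
  have hpp : p.Prime := Fact.out
  have hcard : Fintype.card I * 2 + 1 = p := by
    have := Fintype.card_congr ρ'
    rw [ZMod.card, Fintype.card_option, Fintype.card_prod, Fintype.card_bool] at this
    exact this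
  have hne : Nonempty I := by
    rw [← Fintype.card_pos_iff]
    have := hpp.two_le
    omega
  have h1 := key ρ s v hK hp k rfl
  rw [hNN, zero_sub, dvd_neg] at h1
  set c := ZMod.castHom (dvd_pow_self p hk) (ZMod p) with hc
  set P : ℤ := ∑ j ∈ univ.filter (fun j : ZMod p => j ≠ 0),
    (YY ρ' (fun i => j * c (s false i)) * YY ρ' (fun i => j * c (s true i))) with hP
  have h2 : ∑ j : ZMod p, ZZ ρ s v j = p * ((Fintype.card T).factorial * P) := by
    rw [hP, Finset.mul_sum, Finset.mul_sum, Finset.sum_filter]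
    apply Finset.sum_congr rfl
    intro j _
    by_cases hj : j = 0
    · subst hj
      rw [if_neg (by simp)]
      exact hT0 p (p ^ k) hp I T F ρ s v
    · rw [if_pos hj, hT p (p ^ k) hp ((hpp.odd_of_ne_two hp).pow) (dvd_pow_self p hk) I T F ρ ρ' s v j hj]
      ring
  rw [h2, pow_two] at h1
  have hp0 : (p : ℤ) ≠ 0 := by exact_mod_cast hpp.ne_zero
  have h3 := Int.dvd_of_mul_dvd_mul_left hp0 h1
  have hpi : Prime (p : ℤ) := Nat.prime_iff_prime_int.mp hpp
  rcases hpi.dvd_or_dvd h3 with h4 | h4
  · have h5 : p ∣ (Fintype.card T).factorial := by exact_mod_cast h4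
    rw [hpp.dvd_factorial] at h5
    omega
  · have h5 : ((P : ℤ) : ZMod p) = 0 := (ZMod.intCast_zmod_eq_zero_iff_dvd P p).mpr h4
    set y : ZMod p := ((YY ρ' (fun _ => 1) : ℤ) : ZMod p) with hy
    have hy0 : y ≠ 0 := hB p hp I ρ'
    set r : ZMod p := y * y * ((∏ i, c (s false i)) * ∏ i, c (s true i)) with hr
    have hr0 : r ≠ 0 := by
      apply mul_ne_zero (mul_ne_zero hy0 hy0)
      apply mul_ne_zero
      · rw [Finset.prod_ne_zero_iff]
        intro i _
        exact hs false i
      · rw [Finset.prod_ne_zero_iff]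
        intro i _
        exact hs true i
    have h6 : ((P : ℤ) : ZMod p) = ∑ j ∈ univ.filter (fun j : ZMod p => j ≠ 0), r := by
      rw [hP, Int.cast_sum]
      apply Finset.sum_congr rfl
      intro j hj
      have hj0 : j ≠ 0 := by simpa using hj
      rw [Int.cast_mul, hA p hp I ρ' (fun i => j * c (s false i)), hA p hp I ρ' (fun i => j * c (s true i)),
        Finset.prod_mul_distrib, Finset.prod_mul_distrib,
        Finset.prod_const, Finset.card_univ, ← hy, hr]
      have h7 : j ^ Fintype.card I * j ^ Fintype.card I = 1 := by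
        rw [← pow_add]
        have h8 : Fintype.card I + Fintype.card I = p - 1 := by omega
        rw [h8]
        exact ZMod.pow_card_sub_one_eq_one hj0
      linear_combination (y * y * ((∏ i, c (s false i)) * ∏ i, c (s true i))) * h7
    rw [h6, Finset.sum_const] at h5
    have h9 : (univ.filter (fun j : ZMod p => j ≠ 0)).card = p - 1 := by
      rw [Finset.filter_ne', Finset.card_erase_of_mem (Finset.mem_univ _), Finset.card_univ, ZMod.card]
    rw [h9, nsmul_eq_mul, Nat.cast_sub hpp.one_le, ZMod.natCast_self] at h5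
    apply hr0
    simpa using h5

end Pool.Agent.W82.LEBI
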